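import Mathlib

/-!
# MP_512501: a right-dominated polynomial whose derivative does not peak at an endpoint
-/

namespace Pool.Agent.Results.MP_512501_an.DerivativeInside

open Polynomial

/-- The polynomial `(x+1)(x+497/500)(x+47/50)(x+22/25)(x+18/25)(x-7/25)^32`. -/
noncomputable def W : ℝ[X] :=
  (X + C 1) * (X + C (497 / 500)) * (X + C (47 / 50)) * (X + C (22 / 25)) * (X + C (18 / 25)) *
    (X - C (7 / 25)) ^ 32

/-- Its values. -/
noncomputable def q (x : ℝ) : ℝ :=
  (x + 1) * (x + 497 / 500) * (x + 47 / 50) * (x + 22 / 25) * (x + 18 / 25) * (x - 7 / 25) ^ 32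

/-- Its logarithmic derivative. -/
noncomputable def g (x : ℝ) : ℝ :=
  1 / (x + 1) + 1 / (x + 497 / 500) + 1 / (x + 47 / 50) + 1 / (x + 22 / 25) + 1 / (x + 18 / 25) +
    32 / (x - 7 / 25)

lemma eval_W (x : ℝ) : W.eval x = q x := by
  simp [W, q]

lemma eval_derivative_W (x : ℝ) (h1 : x + 1 ≠ 0) (h2 : x + 497 / 500 ≠ 0) (h3 : x + 47 / 50 ≠ 0)
    (h4 : x + 22 / 25 ≠ 0) (h5 : x + 18 / 25 ≠ 0) (h6 : x - 7 / 25 ≠ 0) :
    W.derivative.eval x = q x * g x := by
  rw [q, g]
  rw [W, derivative_mul, derivative_mul, derivative_mul, derivative_mul, derivative_mul,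
    derivative_X_sub_C_pow]
  simp only [derivative_add, derivative_X, derivative_C, add_zero, one_mul,
    mul_one, eval_add, eval_mul, eval_X, eval_C, eval_pow, eval_sub, eval_natCast]
  generalize x + 1 = a1 at *
  generalize x + 497 / 500 = a2 at *
  generalize x + 47 / 50 = a3 at *
  generalize x + 22 / 25 = a4 at *
  generalize x + 18 / 25 = a5 at *
  generalize x - 7 / 25 = a6 at *
  rw [show (32 - 1 : ℕ) = 31 from rfl, show a6 ^ 32 = a6 ^ 31 * a6 from pow_succ _ _]
  generalize a6 ^ 31 = b
  push_cast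
  field_simp

lemma eval_derivative_W_neg :
    W.derivative.eval (-1) =
      (-1 + 497 / 500) * (-1 + 47 / 50) * (-1 + 22 / 25) * (-1 + 18 / 25) * (-1 - 7 / 25) ^ 32 := by
  rw [W, derivative_mul, derivative_mul, derivative_mul, derivative_mul, derivative_mul,
    derivative_X_sub_C_pow]
  simp only [derivative_add, derivative_X, derivative_C, add_zero, one_mul,
    mul_one, eval_add, eval_mul, eval_X, eval_C, eval_pow, eval_sub, eval_natCast]
  rw [show ((-1 : ℝ) + 1) = 0 by norm_num]
  simp only [zero_mul, mul_zero, add_zero, zero_add]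

/-- Bound of `|q|` between two consecutive zeros through one comparison point. -/
lemma key (x u : ℝ) (h1 : u + 1 ≠ 0) (h2 : u + 497 / 500 ≠ 0) (h3 : u + 47 / 50 ≠ 0)
    (h4 : u + 22 / 25 ≠ 0) (h5 : u + 18 / 25 ≠ 0) (h6 : u - 7 / 25 ≠ 0)
    (k1 : 0 ≤ (x + 1) / (u + 1)) (k2 : 0 ≤ (x + 497 / 500) / (u + 497 / 500))
    (k3 : 0 ≤ (x + 47 / 50) / (u + 47 / 50)) (k4 : 0 ≤ (x + 22 / 25) / (u + 22 / 25))
    (k5 : 0 ≤ (x + 18 / 25) / (u + 18 / 25)) (k6 : 0 ≤ (x - 7 / 25) / (u - 7 / 25))
    (hd : (x - u) * g u ≤ 1 / 20) (hq : |q u| ≤ 19 / 20 * q 1) : |q x| ≤ q 1 := by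
  have e : ∀ a : ℝ, a ≤ Real.exp (a - 1) := fun a => by
    have := Real.add_one_le_exp (a - 1)
    linarith
  have hprod : q x = q u * ((x + 1) / (u + 1) * ((x + 497 / 500) / (u + 497 / 500)) *
      ((x + 47 / 50) / (u + 47 / 50)) * ((x + 22 / 25) / (u + 22 / 25)) *
      ((x + 18 / 25) / (u + 18 / 25)) * ((x - 7 / 25) / (u - 7 / 25)) ^ 32) := by
    simp only [q, div_pow]
    have h6' : (u - 7 / 25) ^ 32 ≠ 0 := pow_ne_zero _ h6
    generalize u + 1 = a1 at *
    generalize u + 497 / 500 = a2 at *
    generalize u + 47 / 50 = a3 at *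
    generalize u + 22 / 25 = a4 at *
    generalize u + 18 / 25 = a5 at *
    generalize (u - 7 / 25) ^ 32 = a6 at *
    generalize x + 1 = b1 at *
    generalize x + 497 / 500 = b2 at *
    generalize x + 47 / 50 = b3 at *
    generalize x + 22 / 25 = b4 at *
    generalize x + 18 / 25 = b5 at *
    generalize (x - 7 / 25) ^ 32 = b6 at *
    field_simp
  have hle : (x + 1) / (u + 1) * ((x + 497 / 500) / (u + 497 / 500)) *
      ((x + 47 / 50) / (u + 47 / 50)) * ((x + 22 / 25) / (u + 22 / 25)) *
      ((x + 18 / 25) / (u + 18 / 25)) * ((x - 7 / 25) / (u - 7 / 25)) ^ 32 ≤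
      Real.exp ((x - u) * g u) := by
    have hexp : Real.exp ((x - u) * g u) = Real.exp ((x + 1) / (u + 1) - 1) *
        Real.exp ((x + 497 / 500) / (u + 497 / 500) - 1) *
        Real.exp ((x + 47 / 50) / (u + 47 / 50) - 1) *
        Real.exp ((x + 22 / 25) / (u + 22 / 25) - 1) *
        Real.exp ((x + 18 / 25) / (u + 18 / 25) - 1) *
        Real.exp ((x - 7 / 25) / (u - 7 / 25) - 1) ^ 32 := by
      rw [← Real.exp_nat_mul, ← Real.exp_add, ← Real.exp_add, ← Real.exp_add, ← Real.exp_add,
        ← Real.exp_add]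
      congr 1
      simp only [g]
      push_cast
      rw [div_sub_one h1, div_sub_one h2, div_sub_one h3, div_sub_one h4, div_sub_one h5,
        div_sub_one h6]
      ring
    rw [hexp]
    have p1 := e ((x + 1) / (u + 1))
    have p2 := e ((x + 497 / 500) / (u + 497 / 500))
    have p3 := e ((x + 47 / 50) / (u + 47 / 50))
    have p4 := e ((x + 22 / 25) / (u + 22 / 25))
    have p5 := e ((x + 18 / 25) / (u + 18 / 25))
    have p6 := e ((x - 7 / 25) / (u - 7 / 25))
    gcongr
  have hnn : 0 ≤ (x + 1) / (u + 1) * ((x + 497 / 500) / (u + 497 / 500)) *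
      ((x + 47 / 50) / (u + 47 / 50)) * ((x + 22 / 25) / (u + 22 / 25)) *
      ((x + 18 / 25) / (u + 18 / 25)) * ((x - 7 / 25) / (u - 7 / 25)) ^ 32 := by positivity
  have hexp2 : Real.exp ((x - u) * g u) ≤ 20 / 19 := by
    have h := Real.add_one_le_exp (-((x - u) * g u))
    have h' : (19 : ℝ) / 20 ≤ Real.exp (-((x - u) * g u)) := by linarith
    rw [Real.exp_neg] at h'
    have hp := Real.exp_pos ((x - u) * g u)
    have h3 : 19 / 20 * Real.exp ((x - u) * g u) ≤ 1 := by
      calc 19 / 20 * Real.exp ((x - u) * g u) ≤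
            (Real.exp ((x - u) * g u))⁻¹ * Real.exp ((x - u) * g u) := by gcongr
        _ = 1 := inv_mul_cancel₀ hp.ne'
    linarith
  rw [hprod, abs_mul, abs_of_nonneg hnn]
  have h19 := hle.trans hexp2
  calc |q u| * _ ≤ |q u| * (20 / 19) := by gcongr
    _ ≤ 19 / 20 * q 1 * (20 / 19) := by gcongr
    _ = q 1 := by ring

lemma q_one_pos : 0 < q 1 := by
  unfold q; norm_num

lemma bound (x : ℝ) (hx : x ∈ Set.Icc (-1 : ℝ) 1) : |q x| ≤ q 1 := by
  obtain ⟨hl, hr⟩ := hx
  rcases le_total x (-497 / 500) with h | h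
  · refine key x (-3989 / 4000) (by norm_num) (by norm_num) (by norm_num) (by norm_num)
      (by norm_num) (by norm_num) ?_ ?_ ?_ ?_ ?_ ?_ ?_ ?_
    · exact div_nonneg (by linarith) (by norm_num)
    · exact div_nonneg_of_nonpos (by linarith) (by norm_num)
    · exact div_nonneg_of_nonpos (by linarith) (by norm_num)
    · exact div_nonneg_of_nonpos (by linarith) (by norm_num)
    · exact div_nonneg_of_nonpos (by linarith) (by norm_num)
    · exact div_nonneg_of_nonpos (by linarith) (by norm_num)
    · unfold g; norm_num; linarith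
    · unfold q; rw [abs_le]; norm_num
  rcases le_total x (-47 / 50) with h' | h'
  · refine key x (-97 / 100) (by norm_num) (by norm_num) (by norm_num) (by norm_num)
      (by norm_num) (by norm_num) ?_ ?_ ?_ ?_ ?_ ?_ ?_ ?_
    · exact div_nonneg (by linarith) (by norm_num)
    · exact div_nonneg (by linarith) (by norm_num)
    · exact div_nonneg_of_nonpos (by linarith) (by norm_num)
    · exact div_nonneg_of_nonpos (by linarith) (by norm_num)
    · exact div_nonneg_of_nonpos (by linarith) (by norm_num)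
    · exact div_nonneg_of_nonpos (by linarith) (by norm_num)
    · unfold g; norm_num; linarith
    · unfold q; rw [abs_le]; norm_num
  rcases le_total x (-22 / 25) with h'' | h''
  · refine key x (-1827 / 2000) (by norm_num) (by norm_num) (by norm_num) (by norm_num)
      (by norm_num) (by norm_num) ?_ ?_ ?_ ?_ ?_ ?_ ?_ ?_
    · exact div_nonneg (by linarith) (by norm_num)
    · exact div_nonneg (by linarith) (by norm_num)
    · exact div_nonneg (by linarith) (by norm_num)
    · exact div_nonneg_of_nonpos (by linarith) (by norm_num)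
    · exact div_nonneg_of_nonpos (by linarith) (by norm_num)
    · exact div_nonneg_of_nonpos (by linarith) (by norm_num)
    · unfold g; norm_num; linarith
    · unfold q; rw [abs_le]; norm_num
  rcases le_total x (-18 / 25) with h3 | h3
  · refine key x (-103 / 125) (by norm_num) (by norm_num) (by norm_num) (by norm_num)
      (by norm_num) (by norm_num) ?_ ?_ ?_ ?_ ?_ ?_ ?_ ?_
    · exact div_nonneg (by linarith) (by norm_num)
    · exact div_nonneg (by linarith) (by norm_num)
    · exact div_nonneg (by linarith) (by norm_num)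
    · exact div_nonneg (by linarith) (by norm_num)
    · exact div_nonneg_of_nonpos (by linarith) (by norm_num)
    · exact div_nonneg_of_nonpos (by linarith) (by norm_num)
    · unfold g; norm_num; linarith
    · unfold q; rw [abs_le]; norm_num
  rcases le_total x (7 / 25) with h4 | h4
  · refine key x (-167 / 250) (by norm_num) (by norm_num) (by norm_num) (by norm_num)
      (by norm_num) (by norm_num) ?_ ?_ ?_ ?_ ?_ ?_ ?_ ?_
    · exact div_nonneg (by linarith) (by norm_num)
    · exact div_nonneg (by linarith) (by norm_num)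
    · exact div_nonneg (by linarith) (by norm_num)
    · exact div_nonneg (by linarith) (by norm_num)
    · exact div_nonneg (by linarith) (by norm_num)
    · exact div_nonneg_of_nonpos (by linarith) (by norm_num)
    · unfold g; norm_num; linarith
    · unfold q; rw [abs_le]; norm_num
  · have a1 : 0 ≤ x + 1 := by linarith
    have a2 : 0 ≤ x + 497 / 500 := by linarith
    have a3 : 0 ≤ x + 47 / 50 := by linarith
    have a4 : 0 ≤ x + 22 / 25 := by linarith
    have a5 : 0 ≤ x + 18 / 25 := by linarith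
    have a6 : 0 ≤ x - 7 / 25 := by linarith
    have hnn : 0 ≤ q x := by unfold q; positivity
    rw [abs_of_nonneg hnn]
    unfold q
    gcongr

lemma splits_W : W.Splits := by
  unfold W
  refine Splits.mul (Splits.mul (Splits.mul (Splits.mul (Splits.mul ?_ ?_) ?_) ?_) ?_)
    (Splits.pow ?_ _)
  all_goals first | exact Splits.X_add_C _ | exact Splits.X_sub_C _

lemma natDegree_W : W.natDegree = 37 := by
  unfold W
  compute_degree!

lemma roots_W (r : ℝ) (hr : r ∈ W.roots) : r ∈ Set.Icc (-1 : ℝ) 1 := by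
  have h0 : W.eval r = 0 := (mem_roots'.1 hr).2
  rw [eval_W] at h0
  unfold q at h0
  have hz : ∀ a : ℝ, a ^ 32 = 0 → a = 0 := fun a ha => eq_zero_of_pow_eq_zero ha
  rcases mul_eq_zero.1 h0 with h | h
  · simp only [mul_eq_zero] at h
    rcases h with (((h | h) | h) | h) | h <;> constructor <;> linarith
  · have := hz _ h
    constructor <;> linarith

/-- **MP_512501, Q1 (negative answer).**  The conjecture: if all zeros of a real polynomial `Q` of
degree `n ≥ 1` are real and lie in `[-1,1]` and `|Q|` attains its maximum on `[-1,1]` at `1`, then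
`|Q'|` attains its maximum on `[-1,1]` at an endpoint, is false; there is a counterexample of
degree `37`, with all data rational. -/
theorem result :
    ∃ Q : ℝ[X], Q.natDegree = 37 ∧ Q.Splits ∧ (∀ r ∈ Q.roots, r ∈ Set.Icc (-1 : ℝ) 1) ∧
      (∀ x ∈ Set.Icc (-1 : ℝ) 1, |Q.eval x| ≤ |Q.eval 1|) ∧
      ∃ x₀ ∈ Set.Ioo (-1 : ℝ) 1,
        max |Q.derivative.eval (-1)| |Q.derivative.eval 1| < |Q.derivative.eval x₀| := by
  refine ⟨W, natDegree_W, splits_W, roots_W, ?_, -79 / 80, ⟨by norm_num, by norm_num⟩, ?_⟩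
  · intro x hx
    rw [eval_W, eval_W, abs_of_pos q_one_pos]
    exact bound x hx
  · rw [eval_derivative_W_neg, eval_derivative_W 1 (by norm_num) (by norm_num) (by norm_num)
      (by norm_num) (by norm_num) (by norm_num), eval_derivative_W (-79 / 80) (by norm_num)
      (by norm_num) (by norm_num) (by norm_num) (by norm_num) (by norm_num), max_lt_iff]
    unfold q g
    constructor
    · rw [lt_abs]
      norm_num [abs_lt]
    · rw [lt_abs]
      norm_num [abs_lt]

end Pool.Agent.Results.MP_512501_an.DerivativeInside
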